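import Pool.Agent.helper53.BND.SpecL

set_option autoImplicit false

open scoped Topology Matrix
open Filter Finset

namespace Pool.Agent.BND

open Pool.Agent.CZ Pool.Agent.PV

theorem LGM_mx (l : Lv) (κ : Type) [Fintype κ] [DecidableEq κ] (G G' : κ → κ → ℕ → ℝ → ℕ → ℕ → ℂ) (e : ℕ) (s : ℝ) :
    mx l (fmul l G G') e s = mx l G e s * mx l G' e s := by
  ext ⟨a, i⟩ ⟨b, j⟩
  rw [Matrix.mul_apply, Fintype.sum_prod_type]
  simp only [mx, fmul, Matrix.of_apply, Finset.sum_range]

theorem LGM_fm (hBDM : BDM_stmt) (l : Lv) (hl : IsLv l) (κ : Type) [Fintype κ] [DecidableEq κ]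
    (G G' : κ → κ → ℕ → ℝ → ℕ → ℕ → ℂ) (hG : ∀ a b, IsFm l (G a b)) (hG' : ∀ a b, IsFm l (G' a b)) (a b : κ) :
    IsFm l (fmul l G G' a b) := by
  refine ⟨?_, ?_, ?_⟩
  · intro e i j he hi hj
    refine continuousOn_finset_sum _ fun k _ => continuousOn_finset_sum _ fun r hr => ?_
    exact ((hG a k).cont e i r he hi (Finset.mem_range.1 hr)).mul ((hG' k b).cont e r j he (Finset.mem_range.1 hr) hj)
  · intro e s i j he hs hi hj
    refine Finset.sum_congr rfl fun k _ => Finset.sum_congr rfl fun r hr => ?_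
    rw [(hG a k).vtx e s i r he hs hi (Finset.mem_range.1 hr), (hG' k b).vtx e s r j he hs (Finset.mem_range.1 hr) hj]
  · intro e i j bb he hi hj
    have ht := hl.ht e he bb
    obtain ⟨h1, -⟩ := hBDM l.h (l.W e bb)
    have h2 := h1 κ (fun k v => G a k v 0) (fun k v => G' k b v 0) i j (by rw [ht]; exact hi) (by rw [ht]; exact hj)
    rw [ht] at h2
    change ∑ k : κ, ∑ r ∈ range (l.h e), G a k e (if bb then 1 else 0) i r * G' k b e (if bb then 1 else 0) r j = _
    rw [Finset.sum_congr rfl fun k _ => Finset.sum_congr rfl fun r hr => by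
      rw [(hG a k).ends e i r bb he hi (Finset.mem_range.1 hr), (hG' k b).ends e r j bb he (Finset.mem_range.1 hr) hj], h2]
    rfl

theorem LGM (hBDM : BDM_stmt) (hBFA : BFA_stmt) (hBFM : BFM_stmt) : LGM_stmt := by
  refine ⟨fun l κ _ _ G G' e s => LGM_mx l κ G G' e s, ?_, ?_⟩
  · intro l hl κ _ _ G G' hG hG'
    refine ⟨LGM_fm hBDM l hl κ G G' hG.fm hG'.fm, fun e s he hs => ?_⟩
    rw [LGM_mx, Matrix.det_mul]
    exact mul_ne_zero (hG.det e s he hs) (hG'.det e s he hs)
  · intro B M _ α A _ ι u c hC S hS m κ _ _ g g' G G' hG hG' hg hg' a b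
    have hmem : ∀ x : S m, InS B ι u c m (x : A) := fun x => (hS.mem m x).1 x.2
    obtain ⟨h1, h2, h3⟩ := hBFA B M α A ι u c hC m
    have key : ∀ t : Finset κ, InS B ι u c m (∑ k ∈ t, ((g a k : A) * (g' k b : A))) ∧
        Fam B c m (∑ k ∈ t, ((g a k : A) * (g' k b : A)))
          (fun e s i j => ∑ k ∈ t, ∑ r ∈ range ((B.L m).h e), G a k e s i r * G' k b e s r j) := by
      intro t
      classical
      induction t using Finset.induction_on with
      | empty =>
        have h4 := h3 0 1 _ h1.1 h1.2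
        simpa using h4
      | insert k t hk ih =>
        have h5 := hBFM B M α A ι u c hC m (g a k : A) (g' k b : A) (G a k) (G' k b) (hmem _) (hmem _) (hG a k) (hG' k b)
          (hg a k) (hg' k b)
        have h6 := h2 _ _ _ _ h5.1 ih.1 h5.2 ih.2
        simpa only [Finset.sum_insert hk] using h6
    have h7 : (((g * g') a b : S m) : A) = ∑ k : κ, ((g a k : A) * (g' k b : A)) := by
      rw [Matrix.mul_apply]
      push_cast
      rfl
    rw [h7]
    exact (key Finset.univ).2

end Pool.Agent.BND
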