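import Pool.Agent.helper53.BND.SpecL

set_option autoImplicit false

open scoped Topology Matrix
open Filter Finset

namespace Pool.Agent.BND

open Pool.Agent.CZ Pool.Agent.PV

/-- the norm of an element of `S m` with small family -/
theorem LHT_norm (B : BS) [CompactSpace ↥(XS B)] (A : Type) [CStarAlgebra A]
    (ι : C(↥(XS B), ℂ) →⋆ₐ[ℂ] A) (u : unitary A) (c : ℤ → A →ₗ[ℂ] C(↥(XS B), ℂ)) (m H : ℕ)
    (hH : ∀ e, e < (B.L m).N → (B.L m).h e ≤ H) (a : A) (F : ℕ → ℝ → ℕ → ℕ → ℂ) (ha : InS B ι u c m a)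
    (hF : Fam B c m a F) (ε : ℝ) (hε : 0 ≤ ε)
    (hb : ∀ e s i j, e < (B.L m).N → s ∈ U → i < (B.L m).h e → j < (B.L m).h e → ‖F e s i j‖ ≤ ε) :
    ‖a‖ ≤ (2 * H + 1) * ε := by
  have hc : ∀ n : ℤ, ‖c n a‖ ≤ ε := by
    intro n
    rw [ContinuousMap.norm_le _ hε]
    intro x
    obtain ⟨e, s, i, he, hs, hi, hx⟩ := (x.2 m).1
    rw [hF x e s i he hs hi hx n]
    split_ifs with h
    · exact hb e s i _ he hs hi (by omega)
    · rw [norm_zero]
      exact hε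
  rw [ha.sum H hH]
  refine (norm_sum_le _ _).trans ?_
  have h1 : ∀ n ∈ Icc (-(H : ℤ)) H, ‖ι (c n a) * up u n‖ ≤ ε := by
    intro n _
    have h2 : ‖ι (c n a) * up u n‖ = ‖ι (c n a)‖ := CStarRing.norm_mul_coe_unitary _ _
    rw [h2]
    exact (NonUnitalStarAlgHom.norm_apply_le ι (c n a)).trans (hc n)
  refine (Finset.sum_le_sum h1).trans ?_
  rw [Finset.sum_const, Int.card_Icc, nsmul_eq_mul]
  have h3 : ((((H : ℤ) + 1 - -(H : ℤ)).toNat : ℕ) : ℝ) = 2 * H + 1 := by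
    have h4 : ((H : ℤ) + 1 - -(H : ℤ)).toNat = 2 * H + 1 := by omega
    rw [h4]
    push_cast
    ring
  rw [h3]

/-- uniform continuity of the families -/
theorem LHT_unif (l : Lv) (F : ℝ → ℕ → ℝ → ℕ → ℕ → ℂ)
    (hF : ∀ e i j, e < l.N → i < l.h e → j < l.h e → ContinuousOn (fun p : ℝ × ℝ => F p.1 e p.2 i j) (U ×ˢ U))
    (ε : ℝ) (hε : 0 < ε) : ∃ δ > 0, ∀ τ ∈ U, ∀ τ' ∈ U, |τ - τ'| < δ → ∀ e s i j, e < l.N → s ∈ U → i < l.h e → j < l.h e →
      ‖F τ e s i j - F τ' e s i j‖ ≤ ε := by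
  set H := ∑ e ∈ range l.N, l.h e with hH
  have hle : ∀ e, e < l.N → l.h e ≤ H := fun e he =>
    Finset.single_le_sum (f := l.h) (fun _ _ => Nat.zero_le _) (Finset.mem_range.2 he)
  let Φ : ℝ × ℝ → (Fin l.N × Fin H × Fin H → ℂ) := fun p q =>
    if (q.2.1 : ℕ) < l.h q.1 ∧ (q.2.2 : ℕ) < l.h q.1 then F p.1 q.1 p.2 q.2.1 q.2.2 else 0
  have hΦ : ContinuousOn Φ (U ×ˢ U) := by
    refine continuousOn_pi.2 fun q => ?_
    by_cases h : (q.2.1 : ℕ) < l.h q.1 ∧ (q.2.2 : ℕ) < l.h q.1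
    · have h1 := hF q.1 q.2.1 q.2.2 q.1.2 h.1 h.2
      exact h1.congr fun p _ => if_pos h
    · have h1 : ContinuousOn (fun _ : ℝ × ℝ => (0 : ℂ)) (U ×ˢ U) := continuousOn_const
      exact h1.congr fun p _ => if_neg h
  have huc := (isCompact_Icc.prod isCompact_Icc).uniformContinuousOn_of_continuous hΦ
  rw [Metric.uniformContinuousOn_iff] at huc
  obtain ⟨δ, hδ, h⟩ := huc ε hε
  refine ⟨δ, hδ, fun τ hτ τ' hτ' hd e s i j he hs hi hj => ?_⟩
  have h1 := h (τ, s) ⟨hτ, hs⟩ (τ', s) ⟨hτ', hs⟩ (by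
    rw [Prod.dist_eq, dist_self, Real.dist_eq]
    exact max_lt hd hδ)
  have h2 := (dist_le_pi_dist (Φ (τ, s)) (Φ (τ', s))
    (⟨e, he⟩, ⟨i, hi.trans_le (hle e he)⟩, ⟨j, hj.trans_le (hle e he)⟩)).trans h1.le
  have h3 : ∀ t : ℝ, Φ (t, s) (⟨e, he⟩, ⟨i, hi.trans_le (hle e he)⟩, ⟨j, hj.trans_le (hle e he)⟩) = F t e s i j := fun t =>
    if_pos ⟨hi, hj⟩
  rw [h3, h3, dist_eq_norm] at h2
  exact h2

theorem LHT (hLGU : LGU_stmt) (hBFE : BFE_stmt) (hBFA : BFA_stmt) (hK1M : K1M_stmt) : LHT_stmt := by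
  intro B M _ α A _ ι u c hC S hS m κ _ _ G hG hGc g₀ g₁ hg₀ hg₁
  have hmem : ∀ x : S m, InS B ι u c m (x : A) := fun x => (hS.mem m x).1 x.2
  have hex : ∀ t : unitInterval, ∃ g : (Matrix κ κ (S m))ˣ, HF B c m (g : Matrix κ κ (S m)) (G t) := fun t =>
    hLGU B M α A ι u c hC S hS m κ (G t) (hG t t.2)
  choose gg hgg using hex
  obtain ⟨-, h2, h3⟩ := hBFA B M α A ι u c hC m
  set H := ∑ e ∈ range (B.L m).N, (B.L m).h e with hHdef
  have hle : ∀ e, e < (B.L m).N → (B.L m).h e ≤ H := fun e he =>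
    Finset.single_le_sum (f := (B.L m).h) (fun _ _ => Nat.zero_le _) (Finset.mem_range.2 he)
  have hcont : Continuous fun t => ((gg t : (Matrix κ κ (S m))ˣ) : Matrix κ κ (S m)) := by
    refine continuous_matrix fun a b => ?_
    refine continuous_induced_rng.2 ?_
    rw [Metric.continuous_iff]
    intro t ε hε
    have hpos : (0 : ℝ) < 2 * H + 1 := by positivity
    obtain ⟨δ, hδ, hδ'⟩ := LHT_unif (B.L m) (fun τ => G τ a b) (hGc a b) (ε / (2 * (2 * H + 1))) (by positivity)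
    refine ⟨δ, hδ, fun t' ht' => ?_⟩
    have h4 := h2 _ _ _ _ (hmem ((gg t' : Matrix κ κ (S m)) a b)) (h3 (-1) _ _ (hmem ((gg t : Matrix κ κ (S m)) a b)) (hgg t a b)).1
      (hgg t' a b) (h3 (-1) _ _ (hmem ((gg t : Matrix κ κ (S m)) a b)) (hgg t a b)).2
    have h5 := LHT_norm B A ι u c m H hle _ _ h4.1 h4.2 (ε / (2 * (2 * H + 1))) (by positivity) (by
      intro e s i j he hs hi hj
      have h6 := hδ' t' t'.2 t t.2 (by
        have h7 : dist t' t = |(t' : ℝ) - t| := rfl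
        rw [← h7]
        exact ht') e s i j he hs hi hj
      have h8 : G t' a b e s i j + -1 * G t a b e s i j = G t' a b e s i j - G t a b e s i j := by ring
      rw [h8]
      exact h6)
    have h9 : (2 * (H : ℝ) + 1) * (ε / (2 * (2 * H + 1))) = ε / 2 := by
      field_simp
    rw [h9] at h5
    have h10 : dist (((gg t' : Matrix κ κ (S m)) a b : S m) : A) (((gg t : Matrix κ κ (S m)) a b : S m) : A) ≤ ε / 2 := by
      rw [dist_eq_norm]
      have h11 : (((gg t' : Matrix κ κ (S m)) a b : S m) : A) - (((gg t : Matrix κ κ (S m)) a b : S m) : A) =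
          (((gg t' : Matrix κ κ (S m)) a b : S m) : A) + (-1 : ℂ) • (((gg t : Matrix κ κ (S m)) a b : S m) : A) := by
        rw [neg_one_smul, sub_eq_add_neg]
      rw [h11]
      exact h5
    exact h10.trans_lt (by linarith)
  have heq : ∀ (t : unitInterval) (g : (Matrix κ κ (S m))ˣ), HF B c m (g : Matrix κ κ (S m)) (G t) →
      ((gg t : (Matrix κ κ (S m))ˣ) : Matrix κ κ (S m)) = (g : Matrix κ κ (S m)) := by
    intro t g hg
    refine Matrix.ext fun a b => Subtype.ext ?_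
    exact (hBFE B M α A ι u c hC m _ _ (G t a b) (G t a b) (hmem _) (hmem _) (hgg t a b) (hg a b)).2 fun _ _ _ _ _ _ _ _ => rfl
  refine (hK1M (S m) κ g₀ g₁).2.2.2 ⟨⟨_, hcont⟩, fun t => (gg t).isUnit, ?_, ?_⟩
  · exact heq 0 g₀ hg₀
  · exact heq 1 g₁ hg₁

end Pool.Agent.BND
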