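import Pool.Agent.helper53.BND.SpecL

set_option autoImplicit false

open scoped Topology Matrix
open Filter Finset

namespace Pool.Agent.BND

open Pool.Agent.CZ Pool.Agent.PV

theorem LKZ (hK1G : K1G_stmt) (hLST : LST_stmt) (hLZL : LZL_stmt) : LKZ_stmt := by
  intro B M _ α A _ ι u c hC S hS Gs hG m h hc w
  obtain ⟨n, g, rfl⟩ := hK1G (S m) w
  rw [k1map_k1]
  obtain ⟨G'', lam, hGF, hHF, hlog, hdet⟩ := hLST B M α A ι u c hC S hS Gs hG m (Fin n) g h
  exact hLZL B M α A ι u c hC S hS (m + 1) (Fin n) _ G'' lam hGF hHF hlog hdet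

end Pool.Agent.BND
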