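import Pool.Agent.helper53.BND.SpecL

set_option autoImplicit false

open scoped Topology Matrix
open Filter Finset

namespace Pool.Agent.BND

open Pool.Agent.CZ Pool.Agent.PV

theorem LPD (hGLC : GLC_stmt) : LPD_stmt := by
  intro ι _ _ _ q l hq
  classical
  have hu : IsUnit q := by
    rw [Matrix.isUnit_iff_isUnit_det, hq]
    exact (Complex.exp_ne_zero l).isUnit
  obtain ⟨g, rfl⟩ := hu
  obtain ⟨γ₀, hγ, h0, h1⟩ := hGLC ι g
  let δ : C(unitInterval, Matrix ι ι ℂ) := γ₀.comp ⟨unitInterval.symm, unitInterval.continuous_symm⟩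
  have hδ0 : δ 0 = 1 := by
    change γ₀ (unitInterval.symm 0) = 1
    rw [unitInterval.symm_zero, h1]
    rfl
  have hδ1 : δ 1 = (g : Matrix ι ι ℂ) := by
    change γ₀ (unitInterval.symm 1) = _
    rw [unitInterval.symm_one, h0]
  have hδu : ∀ t, (δ t).det ≠ 0 := fun t => by
    have h := hγ (unitInterval.symm t)
    rw [Matrix.isUnit_iff_isUnit_det] at h
    exact h.ne_zero
  have hδc : Continuous fun t => (δ t).det := δ.continuous.matrix_det
  let d : C(unitInterval, {z : ℂ // z ≠ 0}) := ⟨fun t => ⟨(δ t).det, hδu t⟩, hδc.subtype_mk _⟩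
  have hd0 : d 0 = ⟨Complex.exp 0, Complex.exp_ne_zero 0⟩ := by
    apply Subtype.ext
    change (δ 0).det = Complex.exp 0
    rw [hδ0, Matrix.det_one, Complex.exp_zero]
  let ν₀ := Complex.isCoveringMap_exp.liftPath d 0 hd0
  have hν0 : ν₀ 0 = 0 := Complex.isCoveringMap_exp.liftPath_zero d 0 hd0
  have hνl : ∀ t, Complex.exp (ν₀ t) = (δ t).det := fun t =>
    congrArg Subtype.val (congrFun (Complex.isCoveringMap_exp.liftPath_lifts d 0 hd0) t)
  have hex : Complex.exp l = Complex.exp (ν₀ 1) := by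
    rw [hνl, hδ1, hq]
  obtain ⟨n, hn⟩ := Complex.exp_eq_exp_iff_exists_int.1 hex
  obtain ⟨i₀⟩ := (inferInstance : Nonempty ι)
  have hpc : Continuous (Set.projIcc (0 : ℝ) 1 zero_le_one) := continuous_projIcc
  have hp0 : Set.projIcc (0 : ℝ) 1 zero_le_one 0 = 0 := Set.projIcc_left _
  have hp1 : Set.projIcc (0 : ℝ) 1 zero_le_one 1 = 1 := Set.projIcc_right _
  let D : ℝ → Matrix ι ι ℂ := fun τ => Matrix.diagonal
    (Function.update (1 : ι → ℂ) i₀ (Complex.exp ((n : ℂ) * (2 * Real.pi * Complex.I) * (τ : ℂ))))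
  have hDc : Continuous D := by
    refine Continuous.matrix_diagonal (continuous_const.update i₀ ?_)
    exact Complex.continuous_exp.comp (continuous_const.mul Complex.continuous_ofReal)
  have hDdet : ∀ τ, (D τ).det = Complex.exp ((n : ℂ) * (2 * Real.pi * Complex.I) * (τ : ℂ)) := fun τ => by
    change (Matrix.diagonal _).det = _
    rw [Matrix.det_diagonal, Finset.prod_update_of_mem (Finset.mem_univ i₀)]
    simp
  have hD0 : D 0 = 1 := by
    change Matrix.diagonal _ = _
    rw [← Matrix.diagonal_one]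
    congr 1
    rw [Complex.ofReal_zero, mul_zero, Complex.exp_zero]
    exact Function.update_eq_self i₀ (1 : ι → ℂ)
  have hD1 : D 1 = 1 := by
    change Matrix.diagonal _ = _
    rw [← Matrix.diagonal_one]
    congr 1
    rw [Complex.ofReal_one, mul_one, Complex.exp_int_mul_two_pi_mul_I]
    exact Function.update_eq_self i₀ (1 : ι → ℂ)
  refine ⟨fun τ => D τ * δ (Set.projIcc 0 1 zero_le_one τ),
    fun τ => ν₀ (Set.projIcc 0 1 zero_le_one τ) + (n : ℂ) * (2 * Real.pi * Complex.I) * (τ : ℂ),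
    hDc.matrix_mul (δ.continuous.comp hpc), (ν₀.continuous.comp hpc).add (continuous_const.mul Complex.continuous_ofReal),
    ?_, ?_, ?_, ?_, ?_⟩
  · change D 0 * δ (Set.projIcc 0 1 zero_le_one 0) = 1
    rw [hp0, hD0, hδ0, mul_one]
  · change D 1 * δ (Set.projIcc 0 1 zero_le_one 1) = _
    rw [hp1, hD1, hδ1, one_mul]
  · change ν₀ (Set.projIcc 0 1 zero_le_one 0) + (n : ℂ) * (2 * Real.pi * Complex.I) * ((0 : ℝ) : ℂ) = 0
    rw [hp0, hν0, Complex.ofReal_zero, mul_zero, add_zero]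
  · change ν₀ (Set.projIcc 0 1 zero_le_one 1) + (n : ℂ) * (2 * Real.pi * Complex.I) * ((1 : ℝ) : ℂ) = l
    rw [hp1, Complex.ofReal_one, mul_one, hn]
  · intro τ _
    rw [Matrix.det_mul, hDdet, ← hνl, Complex.exp_add, mul_comm]

end Pool.Agent.BND
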